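import Pool.Agent.H74.OneP.Stmts

/-! E1: the numerical bounds. -/

namespace Pool.Agent.H74.OneP

open Equiv Equiv.Perm Drawing

theorem e1 (hTau : TauStmt) (hK : KernelStmt) (hE : KEulerStmt) (hC : KCountStmt)
    (hO : OrbStmt) (hEm : EmptyStmt) (hD2 : D2Stmt) (hD3 : D3Stmt) (hD4 : D4Stmt)
    (hD6 : D6Stmt) : LowStmt := by
  intro M G hX
  obtain ⟨τ, hτ⟩ := hTau M
  have K := hK M G τ hτ
  have E : KEul M.rho τ := hE M τ hτ
  obtain ⟨hcard, hn⟩ := hC M τ hτ
  obtain ⟨hO1, hO2⟩ := hO M G hX τ hτ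
  have hv : ∀ v : IV M, ∃ e : M.D, M.org e = Sum.inl v.1 ∧ inter e ∧ gs (M.nxt e) := by
    intro v
    obtain ⟨d, hd⟩ := M.org_surj (Sum.inl v.1)
    have hi : inter d := fun e' he' =>
      ⟨(not_cr_iff _).2 ⟨v.1, he'.trans hd⟩, v.2 e' (he'.trans hd)⟩
    obtain ⟨e0, h0, h1⟩ := hO1 d hi
    exact ⟨e0, h0.trans hd, fun e' he' => hi e' (he'.trans h0), h1⟩
  choose ev hev1 hev2 hev3 using hv
  let Φ : IV M → M.XD := fun v => ⟨kp (M.nxt (ev v)), cr_kp (hev3 v)⟩
  have hP : ∀ v, OrbPack M τ (ev v) (Φ v) := fun v => hO2 (ev v) (hev2 v) (hev3 v) (Φ v) rfl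
  have hinj : ∀ v w, M.org (ev v) = M.org (ev w) → v = w := by
    intro v w h
    rw [hev1, hev1] at h
    exact Subtype.ext (Sum.inl.inj h)
  have : Finite (IV M) := Subtype.finite
  obtain ⟨x0, hx0⟩ := hX
  have hne : Nonempty M.XD := ⟨⟨x0, hx0⟩⟩
  obtain ⟨h1, h2, h3⟩ := hD6 M.XD (IV M) M.rho τ Φ K E inferInstance
    (by
      intro v w hvw hs
      obtain ⟨p, hp1, hp2⟩ := (hP v).a
      have hw := hp2 (Φ w) (ev w) hs (hev2 w) (hev3 w) rfl
      have hw' : M.org (ev w) = p := by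
        rcases hw with h | h
        · exact absurd (hinj _ _ h).symm hvw
        · exact h
      refine ⟨?_, ?_⟩
      · rcases hp1 with h | h
        · exact absurd (hinj _ _ (hw'.trans h)).symm hvw
        · exact h
      · intro u hu
        rcases hp2 (Φ u) (ev u) hu (hev2 u) (hev3 u) rfl with h | h
        · exact Or.inl (hinj _ _ h)
        · exact Or.inr (hinj _ _ (h.trans hw'.symm)))
    (by
      intro hc x
      obtain ⟨y, hy1, hy2⟩ := hEm M G ⟨x0, hx0⟩ τ hτ hc x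
      exact ⟨y, hy1, fun v => hy2 (ev v) (Φ v) (hev2 v) (hev3 v) rfl⟩)
  rw [hn, hcard] at h1 h2 h3
  have hcp : 0 < comps M.rho τ := by
    have : Nonempty (Quotient (SameCycle.setoid M.rho ⊔ SameCycle.setoid τ)) :=
      ⟨Quotient.mk _ ⟨x0, hx0⟩⟩
    exact Nat.card_pos
  have hlow : (∀ x, M.rho⁻¹ (τ (M.rho⁻¹ (τ x))) = x) → 6 ≤ Nat.card M.X := by
    intro hall
    have := hD2 M.XD M.rho τ K E hall
    rw [hcard] at this
    omega
  refine ⟨by omega, ?_, ?_, ?_⟩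
  · intro hc5
    by_contra hlt
    obtain ⟨-, hall⟩ := h2 (by omega)
    have := hlow hall
    omega
  · intro hc2 hc5
    by_contra hlt
    rcases h3 (by omega) with hall | ⟨hc1, v, hv1, hv2, hv3⟩
    · have := hlow hall
      omega
    · have hG := (hP v).g hv1 hv2
      have := hD4 M.XD M.rho τ K E hc1 (Φ v) hv1 hv2 hv3 hG
      rw [hcard] at this
      omega
  · intro hc7
    by_contra hlt
    obtain ⟨hc1, hall⟩ := h2 (by omega)
    have := hD3 M.XD M.rho τ K E hc1 hall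
    rw [hcard, hc7] at this
    exact this rfl

end Pool.Agent.H74.OneP
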