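import Pool.Agent.H74.OneP.Stmts

/-! C10: if the kernel is disconnected, every component has an empty cycle. -/

namespace Pool.Agent.H74.OneP

open Equiv Equiv.Perm Drawing

private theorem rel_rho {X : Type} (ρ τ : Perm X) {a b : X} (h : ρ.SameCycle a b) :
    (SameCycle.setoid ρ ⊔ SameCycle.setoid τ) a b :=
  (le_sup_left : SameCycle.setoid ρ ≤ SameCycle.setoid ρ ⊔ SameCycle.setoid τ) h

private theorem rel_tau {X : Type} (ρ τ : Perm X) {a b : X} (h : τ.SameCycle a b) :
    (SameCycle.setoid ρ ⊔ SameCycle.setoid τ) a b :=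
  (le_sup_right : SameCycle.setoid τ ≤ SameCycle.setoid ρ ⊔ SameCycle.setoid τ) h

private theorem rel_psi {X : Type} [Finite X] (ρ τ : Perm X) {a b : X}
    (h : (ρ⁻¹ * τ).SameCycle a b) :
    (SameCycle.setoid ρ ⊔ SameCycle.setoid τ) a b := by
  obtain ⟨i, rfl⟩ := h.exists_nat_pow_eq
  induction i with
  | zero => exact Setoid.refl' _ _
  | succ n ih =>
    refine Setoid.trans' _ (ih ⟨n, by simp⟩) ?_
    rw [pow_succ', Equiv.Perm.mul_apply]
    set c := ((ρ⁻¹ * τ) ^ n) a
    refine Setoid.trans' _ (rel_tau ρ τ (b := τ c) ⟨1, by simp⟩) ?_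
    exact rel_rho ρ τ ⟨-1, by simp⟩

private theorem rho_val {M : Drawing} (x : M.XD) : (M.rho x).1 = M.rot x.1 := rfl

theorem c10 (hO : OrbStmt) : EmptyStmt := by
  intro M G hX τ hτ hc x
  by_contra hcon
  push Not at hcon
  obtain ⟨hO1, hO2⟩ := hO M G hX τ hτ
  set R : Setoid M.XD := SameCycle.setoid M.rho ⊔ SameCycle.setoid τ with hR
  let S : Set M.V := {v | (∃ y : M.XD, R x y ∧ M.org (M.rev y.1) = Sum.inl v) ∨
    (∃ (e : M.D) (z : M.XD), M.org e = Sum.inl v ∧ inter e ∧ gs (M.nxt e) ∧
      z.1 = kp (M.nxt e) ∧ R x z)}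
  -- closure under adjacency
  have hclos : ∀ v w, v ∈ S → M.graph.Adj v w → w ∈ S := by
    intro v w hv hvw
    rw [graph_adj_iff G.simple] at hvw
    obtain ⟨d, hd1, hd2, hd3⟩ := hvw
    rcases hv with ⟨y, hy1, hy2⟩ | ⟨e, z, he1, he2, he3, he4, he5⟩
    · by_cases hcd : M.cr (M.rev d)
      · left
        let z : M.XD := ⟨M.rev d, hcd⟩
        have hz : τ.SameCycle y z := by
          rw [hτ.same]
          show _ = M.org (M.rev (M.rev d))
          rw [rev_rev', hy2, hd2]
        refine ⟨M.rho (M.rho z), ?_, ?_⟩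
        · refine Setoid.trans' _ hy1 (Setoid.trans' _ (rel_tau M.rho τ hz) ?_)
          exact rel_rho M.rho τ ⟨2, by simp [pow_two, Equiv.Perm.mul_apply]⟩
        · rw [far_of_cr hcd] at hd3
          exact hd3
      · rw [far_of_not hcd] at hd3
        have hnd : ¬ inter d := by
          intro h
          have := (h (M.rev y.1) (by rw [hy2, hd2])).2
          rw [rev_rev'] at this
          exact this y.2
        by_cases hi : inter (M.rev d)
        · right
          obtain ⟨e₀, h0, h1⟩ := hO1 _ hi
          have hi0 : inter e₀ := fun e' he' => hi e' (he'.trans h0)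
          let x₀ : M.XD := ⟨kp (M.nxt e₀), cr_kp h1⟩
          have P := hO2 e₀ hi0 h1 x₀ rfl
          rcases P.c (M.rev d) h0.symm with h | ⟨x', hx1, hx2⟩
          · rw [rev_rev'] at h; exact absurd h hnd
          · rw [rev_rev'] at hx2
            refine ⟨e₀, x₀, h0.trans hd3, hi0, h1, rfl, ?_⟩
            have h2 : τ.SameCycle y x' := by
              rw [hτ.same, hx2, hy2, hd2]
            exact Setoid.trans' _ hy1 (Setoid.trans' _ (rel_tau M.rho τ h2)
              (rel_psi M.rho τ hx1.symm))
        · left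
          -- rotate counterclockwise to the next crossed dart
          obtain ⟨m, hm⟩ := ((M.org_iff d (M.rev y.1)).1 (by rw [hy2, hd2])).exists_nat_pow_eq
          have hex : ∃ m : ℕ, M.cr (M.rev ((M.rot ^ m) d)) := ⟨m, by rw [hm, rev_rev']; exact y.2⟩
          classical
          let i := Nat.find hex
          have hi1 : M.cr (M.rev ((M.rot ^ i) d)) := Nat.find_spec hex
          have hi2 : ∀ j < i, ¬ M.cr (M.rev ((M.rot ^ j) d)) := fun j hj => Nat.find_min hex hj
          have hipos : 0 < i := by
            rcases Nat.eq_zero_or_pos i with h | h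
            · rw [h] at hi1; exact absurd hi1 hcd
            · exact h
          let x1 : M.XD := ⟨M.rev ((M.rot ^ i) d), hi1⟩
          have horg : ∀ j : ℕ, M.org ((M.rot ^ j) d) = M.org d := by
            intro j
            induction j with
            | zero => rfl
            | succ n ih => rw [pow_succ', Equiv.Perm.mul_apply, org_rot, ih]
          have hback : ∀ j ≤ i, (M.rot⁻¹ ^ j) (M.rev x1.1) = (M.rot ^ (i - j)) d := by
            intro j hj
            show (M.rot⁻¹ ^ j) (M.rev (M.rev ((M.rot ^ i) d))) = _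
            rw [rev_rev']
            have : (M.rot ^ i) d = (M.rot ^ j) ((M.rot ^ (i - j)) d) := by
              rw [← Equiv.Perm.mul_apply, ← pow_add]
              congr 2; omega
            rw [this, inv_pow]; simp
          have hTrav : Trav x1 d := by
            refine ⟨i, hipos, ?_, ?_⟩
            · rw [hback i le_rfl]; simp
            · intro j hj hji
              rw [hback j hji]
              exact hi2 _ (by omega)
          have hyx1 : τ.SameCycle y x1 := by
            rw [hτ.same]
            show _ = M.org (M.rev (M.rev ((M.rot ^ i) d)))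
            rw [rev_rev', horg, hy2, hd2]
          have hx1A : R x x1 := Setoid.trans' _ hy1 (rel_tau M.rho τ hyx1)
          obtain ⟨e, x', h1, h2, h3, h4⟩ := hcon x1 hx1A
          have P := hO2 e h1 h2 x' h3
          rcases P.d x1 d h4.symm hTrav with h | ⟨x'', hx1', hx2'⟩
          · exact absurd h hi
          · refine ⟨x'', ?_, hx2'.trans hd3⟩
            exact Setoid.trans' _ hx1A (Setoid.trans' _ (rel_psi M.rho τ h4)
              (rel_psi M.rho τ hx1'))
    · have hde : M.org d = M.org e := hd2.trans he1.symm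
      have hcd : ¬ M.cr (M.rev d) := (he2 d hde).2
      rw [far_of_not hcd] at hd3
      have P := hO2 e he2 he3 z he4
      rcases P.c d hde with h | ⟨x', hx1, hx2⟩
      · right
        obtain ⟨e₀, h0, h1⟩ := hO1 _ h
        have hi0 : inter e₀ := fun e' he' => h e' (he'.trans h0)
        let x₀ : M.XD := ⟨kp (M.nxt e₀), cr_kp h1⟩
        refine ⟨e₀, x₀, h0.trans hd3, hi0, h1, rfl, ?_⟩
        exact Setoid.trans' _ he5 (rel_psi M.rho τ
          (P.b e₀ x₀ hi0 h1 rfl (Or.inr ⟨d, hde, h0.symm⟩)))
      · left
        exact ⟨x', Setoid.trans' _ he5 (rel_psi M.rho τ hx1), hx2.trans hd3⟩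
  -- the graph is connected
  have hconn : ∀ v : M.V, v ∈ S := by
    obtain ⟨vx, hvx⟩ := M.cross_rev x.1 _ x.2.choose_spec
    have hvS : vx ∈ S := Or.inl ⟨x, Setoid.refl' _ _, hvx⟩
    have hC := G.conn2.2 ∅ (by simp)
    intro v
    have hreach := hC.preconnected ⟨vx, by simp⟩ ⟨v, by simp⟩
    obtain ⟨p⟩ := hreach
    have key : ∀ (a b : {v : M.V | v ∉ (∅ : Finset M.V)}),
        (M.graph.induce {v | v ∉ (∅ : Finset M.V)}).Walk a b → a.1 ∈ S → b.1 ∈ S := by
      intro a b p
      induction p with
      | nil => exact id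
      | cons h _ ih => exact fun ha => ih (hclos _ _ ha h)
    exact key _ _ p hvS
  -- every crossing dart lies in the component
  have hall : ∀ y : M.XD, R x y := by
    intro y
    obtain ⟨v, hv⟩ := M.cross_rev y.1 _ y.2.choose_spec
    rcases hconn v with ⟨y', hy1, hy2⟩ | ⟨e, z, he1, he2, -⟩
    · refine Setoid.trans' _ hy1 (rel_tau M.rho τ ?_)
      rw [hτ.same, hy2, hv]
    · have := (he2 (M.rev y.1) (by rw [hv, he1])).2
      rw [rev_rev'] at this
      exact absurd y.2 this
  have h1 : comps M.rho τ ≤ 1 := by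
    unfold comps
    have : Subsingleton (Quotient R) := by
      constructor
      intro a b
      induction a using Quotient.ind
      induction b using Quotient.ind
      exact Quotient.sound (Setoid.trans' _ (Setoid.symm' _ (hall _)) (hall _))
    exact Finite.card_le_one_iff_subsingleton.2 this
  omega

end Pool.Agent.H74.OneP
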